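import Pool.Agent.H333.Reg.Nec

/-!
# Permutation groups generating regular semigroups with corank-`k` maps

`semi a G` is the semigroup `⟨a, G⟩` of maps `Fin n → Fin n` (composition of maps, written on the
left; regularity does not depend on the side), `KHomogeneous k G` says that `G` is transitive on
the `k`-subsets, and `AllRegular k G` that `⟨a, G⟩` is regular for every `a` of rank `n - k`.

Every `k`-homogeneous group has the property, for all `k < n`; conversely, for `n` large compared
with `k` every group with the property is `k`-homogeneous.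

Idea for the first part: if `x` is regular in `⟨a, G⟩`, with `x c x = x`, choose a section `Y` of
the kernel of `a` which meets the image of `x` as often as possible. By `k`-homogeneity some
element of `⟨a, G⟩` of the form `w a` is the idempotent with image `Y` and the kernel of `a`, and
then `(a x) (c w) (a x) = a x`. The converse uses Ramsey's theorem.
-/

namespace Pool.Agent.Results.MP_efbb80_al.KHomogeneousRegular

open Pool.Agent.H333.Reg

/-- (1) Every `k`-homogeneous group `G ≤ S_n` (`k < n`) has the property that `⟨a, G⟩` is regular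
for all `a` of rank `n - k`. (2) For every `k`, for all large `n`, the groups with this property
are exactly the `k`-homogeneous ones; (3) for `k = 1` this holds for `n ≥ 3`, for `k = 2` for
`n ≥ 6` and for `k = 3` for `n ≥ 21`. -/
theorem result :
    (∀ n k : ℕ, k < n → ∀ G : Subgroup (Equiv.Perm (Fin n)),
      KHomogeneous k G → AllRegular k G) ∧
    (∀ k : ℕ, ∃ N : ℕ, ∀ n : ℕ, N ≤ n → ∀ G : Subgroup (Equiv.Perm (Fin n)),
      AllRegular k G ↔ KHomogeneous k G) ∧
    (∀ n : ℕ, 3 ≤ n → ∀ G : Subgroup (Equiv.Perm (Fin n)), AllRegular 1 G ↔ KHomogeneous 1 G) ∧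
    (∀ n : ℕ, 6 ≤ n → ∀ G : Subgroup (Equiv.Perm (Fin n)), AllRegular 2 G ↔ KHomogeneous 2 G) ∧
    (∀ n : ℕ, 21 ≤ n → ∀ G : Subgroup (Equiv.Perm (Fin n)), AllRegular 3 G ↔ KHomogeneous 3 G) := by
  refine ⟨fun n k hk G hG => allRegular_of_kHomogeneous hk.le hG, fun k => ?_, fun n hn G => ?_,
    fun n hn G => ?_, fun n hn G => ?_⟩
  · refine ⟨max k (ramseyBound k (k + 1) (k + 1)), fun n hn G => ⟨fun h => ?_, fun h => ?_⟩⟩
    · exact kHomogeneous_of_allRegular (le_trans (le_max_right _ _) hn) h
    · exact allRegular_of_kHomogeneous (le_trans (le_max_left _ _) hn) h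
  · have h1 : ramseyBound 1 2 2 = 3 := by simp [ramseyBound]
    exact ⟨fun h => kHomogeneous_of_allRegular (by rw [h1]; exact hn) h,
      fun h => allRegular_of_kHomogeneous (by omega) h⟩
  · have h1 : ramseyBound 2 3 3 = 6 := by simp [ramseyBound]
    exact ⟨fun h => kHomogeneous_of_allRegular (by rw [h1]; exact hn) h,
      fun h => allRegular_of_kHomogeneous (by omega) h⟩
  · have h1 : ramseyBound 3 4 4 = 21 := by simp [ramseyBound]
    exact ⟨fun h => kHomogeneous_of_allRegular (by rw [h1]; exact hn) h,
      fun h => allRegular_of_kHomogeneous (by omega) h⟩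

end Pool.Agent.Results.MP_efbb80_al.KHomogeneousRegular
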